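import Pool.Agent.EVN.Defs
import Pool.Agent.Hhelper14.SAW.Defs

/-!
Project EVN (MP_8c6f77_pr, note 3192): THE CONTRACTS of the blocks. All constants are natural numbers.

A: `AEq` (mass of the walks with a beginning in a prefix free set), `AUp` (bound for `P n`), `ALaw`, `ASym`. P: `PMain`. W: `WMain`.
M: `MOne`, `MArea`, `MGrow`. K: `KOne`, `KMono`, `KStage`, `KKey`. D: all of them give the theorem.
-/

namespace Pool.Agent.EVN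

open Pool.Agent.Hhelper14.SAW Pool.Agent.HHP Pool.Agent.HEP Pool.Agent.PLY.G Pool.Agent.BEX.F
open scoped ENNReal

/-- The admissible `n`, `J`: `n` large, `32 J ^ 5 ≤ n`. -/
def Adm (n0 n J : ℕ) : Prop := n0 ≤ n ∧ 1 ≤ J ∧ 32 * J ^ 5 ≤ n

/-! ### block A -/

/-- Beginnings of at most `K` steps of walks from `v`: the last vertex `y` is the start of the extension, the rest is the obstacle. -/
def Beg (v : ℤ × ℤ) (K : ℕ) (η : List (ℤ × ℤ)) : Prop :=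
  2 ≤ η.length ∧ η.length ≤ K + 1 ∧ η.Nodup ∧ HChain η ∧ η.getLast? = some v

/-- No element is a beginning of another one (latest vertex first: no element is a proper suffix of another one). -/
def PFr (X : Set (List (ℤ × ℤ))) : Prop := ∀ η ∈ X, ∀ t, t ++ η ∈ X → t = []

/-- Probability that the walk of the mixture from `v` begins with an element of `X`. -/
noncomputable def Vm (n J : ℕ) (v : ℤ × ℤ) (X : Set (List (ℤ × ℤ))) : ℝ≥0∞ :=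
  (∑ j ∈ Finset.range J, xE ^ (n - j) * (({w | w ∈ Wk v (n - j) ∧ ∃ t, ∃ η ∈ X, w = t ++ η}).ncard : ℝ≥0∞)) / Az n J

/-- `∑ u(η) ev(η)` over a set of beginnings. -/
noncomputable def Sv (n J : ℕ) (X : Set (List (ℤ × ℤ))) : ℝ≥0∞ :=
  ∑' η : X, xE ^ (η.1.length - 1) * ev n J η.1.headI {z | z ∈ η.1.tail}

/-- Mass of a set of beginnings. -/
noncomputable def mass0 (X : Set (List (ℤ × ℤ))) : ℝ≥0∞ := ∑' η : X, xE ^ (η.1.length - 1)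

/-- (A-eq) -/
def AEq : Prop := ∃ C n0 : ℕ, ∀ n J K : ℕ, Adm n0 n J → K ≤ J → ∀ v : ℤ × ℤ, (v = o ∨ v = o') →
  ∀ X : Set (List (ℤ × ℤ)), PFr X → (∀ η ∈ X, Beg v K η) →
    Sv n J X ≤ Vm n J v X + C * (K / J) * mass0 X ∧ Vm n J v X ≤ Sv n J X + C * (K / J) * mass0 X

/-- The probability of the event of Q1 for walks of lengths `n`, `n'`: `a_(n+n') / (a_n a_n')`. -/
noncomputable def PP (n n' : ℕ) : ℝ≥0∞ := (an (n + n') : ℝ≥0∞) / ((an n : ℝ≥0∞) * (an n' : ℝ≥0∞))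

/-- (A-up): two lengths `n ≤ n'`; `Q` contains a pair of beginnings of every pair of walks which meet only at `o`. -/
def AUp : Prop := ∃ C n0 : ℕ, ∀ n n' J K : ℕ, Adm n0 n J → n ≤ n' → K ≤ J →
  ∀ Q : Set (List (ℤ × ℤ) × List (ℤ × ℤ)), (∀ q ∈ Q, Beg o K q.1 ∧ Beg o K q.2) →
  (∀ i j : ℕ, i < J → j < J → ∀ w ∈ Wk o (n - i), ∀ w' ∈ Wk o (n' - j), (∀ z ∈ w, z ∈ w' → z = o) →
    ∃ q ∈ Q, ∃ t t', w = t ++ q.1 ∧ w' = t' ++ q.2) →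
  PP n n' ≤ C * ∑' q : Q,
    (xE ^ (q.1.1.length - 1) * (ev n J q.1.1.headI {z | z ∈ q.1.1.tail} + C * (K / J))) *
    (xE ^ (q.1.2.length - 1) * (ev n' J q.1.2.headI {z | z ∈ q.1.2.tail} + C * (K / J)))

/-- The law `𝓛` is the average of the mixtures for `n` and for `n'`. (So `ev n J o' S ≤ 2 * 𝓛.av S` and the same for `n'`.) -/
def IsEv (n n' J : ℕ) (𝓛 : Law) : Prop := ∀ S : Set (ℤ × ℤ), 2 * 𝓛.av S = ev n J o' S + ev n' J o' S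

/-- (A-law): the walks from `o'` form a law. -/
def ALaw : Prop := ∃ n0 : ℕ, ∀ n n' J : ℕ, Adm n0 n J → n ≤ n' → ∃ 𝓛 : Law, IsEv n n' J 𝓛

/-- The symmetries: translations and the rotation by 180 degrees which exchanges `o` and `o'`, and the rotation by 120 degrees about `o`. -/
inductive Sy : ((ℤ × ℤ) → (ℤ × ℤ)) → Prop
  | tr (a b : ℤ) (h : (a - b) % 3 = 0) : Sy fun z => z + (a, b)
  | ro : Sy fun z => (-1, 0) - z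
  | ro3 : Sy fun z => L (L z)

/-- (A-sym) -/
def ASym : Prop := ∀ (n J : ℕ) (g : (ℤ × ℤ) → (ℤ × ℤ)), Sy g → ∀ (v : ℤ × ℤ) (S : Set (ℤ × ℤ)), hon v →
  ev n J (g v) (g '' S) = ev n J v S

/-! ### block P -/

/-- (P-main), two lengths `n ≤ n'` -/
def PMain : Prop := ∃ C K0 n0 : ℕ, ∀ (n n' J R L : ℕ) (𝓛 : Law) (α : ℕ → ℝ≥0∞) (W : ℝ≥0∞), Adm n0 n J → n ≤ n' → IsEv n n' J 𝓛 → 1 ≤ R →
  K0 * R ^ 2 ≤ L → Antitone α → (∀ k, ak 𝓛 L k ≤ α k) →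
  (∀ D, R ≤ D → D ≤ 8 * R → ∑ s ∈ Finset.range (4 * R + 1), WW 𝓛 L s (D + s) ≤ W) →
  PP n n' ≤
    C * (MM R * ((∑ k ∈ Finset.range (4 * R + 1), α k) / R) * ((∑ k ∈ Finset.range (4 * R + 1), α k) / R + W) + (R : ℝ≥0∞) ^ K0 / J)

/-! ### block W -/

/-- (W-main) -/
def WMain : Prop := ∃ C : ℕ, ∀ (R L D : ℕ) (𝓛 : Law) (α : ℕ → ℝ≥0∞), 1 ≤ R → Antitone α → (∀ k, ak 𝓛 L k ≤ α k) → R ≤ D → D ≤ 8 * R →
  ∑ s ∈ Finset.range (4 * R + 1), WW 𝓛 L s (D + s) ≤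
    C * ((Nat.log 2 R + 1 : ℕ) : ℝ≥0∞) ^ 2 * (α (R / 4) + (hsI.U R)⁻¹ * ∑ y ∈ Finset.range (16 * R + 1), hsI.b y * α y)

/-! ### block M -/

/-- (M-one) -/
def MOne : Prop := ∃ C : ℕ, ∀ R : ℕ, 1 ≤ R → MM R * hsI.b R ≤ C * (FM o (C * R) (C * R) + FM o' (C * R) (C * R))

/-- (M-area) -/
def MArea : Prop := ∃ C : ℕ, ∀ R : ℕ, 1 ≤ R → MM R * hsI.b R ≤ C * R

/-- (M-grow) -/
def MGrow : Prop := ∃ c : ℝ, 0 < c ∧ ∀ N : ℕ, 1 ≤ N →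
  ENNReal.ofReal (c * (N : ℝ) ^ (1 / 4 + 1 / 131 : ℝ)) ≤ FM o (2 * N) N + FM o' (2 * N) N

/-! ### block K -/

/-- (K-one) -/
def KOne : Prop := ∃ C K0 n0 : ℕ, ∀ (n n' J D N M L : ℕ) (𝓛 : Law) (v : ℤ × ℤ), (v = o ∨ v = o') → Adm n0 n J → n ≤ n' → IsEv n n' J 𝓛 →
  1 ≤ D → N ≤ D → D ^ 2 ≤ L → K0 * L ≤ J →
  FM v D N * ∑ h ∈ Finset.range M, ph 𝓛 L (2 * D + 2) h ≤ (M + N + 1 : ℕ) * (1 + C * ((D : ℝ≥0∞) ^ K0 * (L / J)))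

/-- (K-mono) -/
def KMono : Prop := ∃ C n0 : ℕ, ∀ (n n' J L : ℕ) (𝓛 : Law), Adm n0 n J → n ≤ n' → IsEv n n' J 𝓛 → 1 ≤ L → C * L ≤ J →
  ∃ α : ℕ → ℝ≥0∞, Antitone α ∧ ∀ k, ak 𝓛 L k ≤ α k ∧ α k ≤ ak 𝓛 L k + C * (L / J)

/-- (K-stage): the stage lemma. -/
def KStage : Prop := ∃ (c : ℝ≥0∞) (T0 r0 : ℕ), c < 1 ∧ ∀ r : ℕ, r0 ≤ r → ∀ (p : List Blk) (ω : List (ℤ × ℤ)), HChain ω →
  ω.getLast? = some o' →
  ∑' s : List Blk, ind (hsI.toAlph.fpw (T0 * r) s ∧ (∀ z ∈ ω, z ∉ VL (p ++ s)) ∧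
    ∀ s1 s2, s = s1 ++ s2 → s1 ≠ [] → ∃ z ∈ ω, z ∈ Bl (ptz (p ++ s1)) (2 * r)) * wj s ≤ c

/-- (K-key): for every exponent `σ`. -/
def KKey : Prop := ∀ σ : ℝ, 0 < σ → σ < 1 → ∃ C H0 : ℕ, ∀ (H r L : ℕ) (𝓛 : Law) (α : ℕ → ℝ≥0∞), H0 ≤ H → 1 ≤ r →
  C * r * (Nat.log 2 H + 1) ^ 4 ≤ H → H0 ≤ r → C * r ^ 2 ≤ L → Antitone α → (∀ k, ak 𝓛 L k ≤ α k) → 1 ≤ α 0 → α 0 ≠ ⊤ →
  (∀ k, H / 2 ≤ k → k ≤ H → α H ≤ 2 * ak 𝓛 L k) →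
  ENNReal.ofReal σ * (∑ k ∈ Finset.range (H + 1), α k) ≤ H * α H →
  (∀ x, 1 ≤ x → x ≤ H → ∑ k ∈ Finset.range (x + 1), α k ≤
    ENNReal.ofReal (((x : ℝ) / H) ^ σ) * ∑ k ∈ Finset.range (H + 1), α k) →
  (∑ k ∈ Finset.range (H + 1), α k) * hsI.U r ≤ C * (hsI.U H * ∑ h ∈ Finset.range (H + 1), ph 𝓛 (2 * L) r h)

/-! ### the theorem -/

/-- The goal: the upper bound for all `1 ≤ n ≤ n'` (`n' = n`: `Pool.Agent.Hhelper14.Honeycomb.P n ≤ C n ^ (-c)` for every `n`). -/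
def Goal : Prop := ∃ c C : ℝ, 0 < c ∧ 0 < C ∧ ∀ n n' : ℕ, 1 ≤ n → n ≤ n' → PP n n' ≤ ENNReal.ofReal (C * (n : ℝ) ^ (-c))

end Pool.Agent.EVN
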