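import Pool.Agent.EVN.A.Eq
import Pool.Agent.EVN.A.Up
import Pool.Agent.EVN.A.Law
import Pool.Agent.EVN.A.Sym
import Pool.Agent.EVN.P.Main
import Pool.Agent.EVN.W.Fin
import Pool.Agent.EVN.M.One
import Pool.Agent.EVN.M.Area
import Pool.Agent.EVN.K.OneP
import Pool.Agent.EVN.K.OneM
import Pool.Agent.EVN.K.Stage
import Pool.Agent.EVN.K.KeyFin
import Pool.Agent.EVN.D.Main
import Pool.Agent.BEX.Reg

/-!
Project EVN (MP_8c6f77_pr, note 3192): ASSEMBLY. All blocks but the growth of the arms (`MGrow`).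
-/

namespace Pool.Agent.EVN

open Pool.Agent.HEP

/-- The theorem from the growth of the arms. -/
theorem goal_of_grow (hMg : MGrow) : Goal :=
  goal_of aLaw (pmain aSym aUp) w_main m_one marea hMg (KO.kone aEq aSym) (KW.kMono_of aEq aSym)
    (kkey (kstage_of_quarter hsI_quarter))

end Pool.Agent.EVN
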