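import Pool.Agent.GAP.ISys
import Pool.Agent.PLY.G.Rv5
import Pool.Agent.PLY.G.StDefs
import Pool.Agent.BEX.F.Rvb

/-!
Project EVN (MP_8c6f77_pr, note 3192, helper62): `P_n ≤ C n^(-c)` FOR EVERY `n` on the honeycomb lattice. DEFINITIONS.

Vertices `z : ℤ × ℤ`, column of `z` = `F0 z / 3` (`F0 z = 3 k` or `3 k + 1` in the column `k`), lateral coordinate `z.2`, `o = (0,0)`, `o' = (-1,0)`.
Words `l : List Blk`, `hj` height, `wj` mass, `jn l` the path, which starts at `o` and is entered from `o'`; `ptz l` = start of the next block.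

* `Wk v n`: self-avoiding walks of `n` steps from `v`, latest vertex first; `Wa v n S`: those which avoid `S`.
* `ev n J v S`: probability that a walk from `v` of length `n - j` (`j < J` chosen with weight `x^(n-j) c_(n-j)`) avoids `S`.
* `Law`: a probability law on finitely many paths from `o'` (latest vertex first). `av`: probability to avoid a set.
* `VL l`: the vertices of the word. `ln l`: number of steps (with the connecting steps), `wj l = xE ^ ln l`.
* `Bx D`, `Bl y r`: boxes.
* `ph 𝓛 L r h`: the mass of `(l, ω)`, `l` of height `h`, at most `L` steps, `ω` avoids `l` and the box `Bl (ptz l) r`.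
* `Cut k η`, `FA v D q`: arms from `v` (`v = o` or `o'`) to the column `q`, inside `Bx D`, which end with the step from the column `q - 1` to the
  column `q`, without earlier cut. `FM v D N` = their mass for `q ≤ N`.
* `MM R`: mass of the blocks of size at most `60 R` with one marked vertex.
* `er 𝓛 κ`: the functional of the end of a word which is read from its start. `WW`: pairs of words from the same vertex.
-/

namespace Pool.Agent.EVN

open Pool.Agent.Hhelper14.SAW Pool.Agent.HHP Pool.Agent.HEP Pool.Agent.PLY.G Pool.Agent.BEX.F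
open scoped ENNReal

/-! ### walks -/

/-- Self-avoiding walks of `n` steps from `v`, latest vertex first. -/
def Wk (v : ℤ × ℤ) (n : ℕ) : Set (List (ℤ × ℤ)) :=
  {P | P.length = n + 1 ∧ P.Nodup ∧ HChain P ∧ P.getLast? = some v}

/-- The walks from `v` which avoid `S`. -/
def Wa (v : ℤ × ℤ) (n : ℕ) (S : Set (ℤ × ℤ)) : Set (List (ℤ × ℤ)) := {P | P ∈ Wk v n ∧ ∀ z ∈ P, z ∉ S}

/-- Normalisation of the mixture of lengths. -/
noncomputable def Az (n J : ℕ) : ℝ≥0∞ := ∑ j ∈ Finset.range J, xE ^ (n - j) * ((Wk o (n - j)).ncard : ℝ≥0∞)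

/-- THE EXTENSION FUNCTIONAL: probability that a walk of the mixture of lengths, from `v`, avoids `S`. -/
noncomputable def ev (n J : ℕ) (v : ℤ × ℤ) (S : Set (ℤ × ℤ)) : ℝ≥0∞ :=
  (∑ j ∈ Finset.range J, xE ^ (n - j) * ((Wa v (n - j) S).ncard : ℝ≥0∞)) / Az n J

/-! ### laws -/

/-- A probability law on finitely many paths from `o'`, latest vertex first. -/
structure Law where
  /-- the paths -/
  Om : Finset (List (ℤ × ℤ))
  /-- their probabilities -/
  p : List (ℤ × ℤ) → ℝ≥0∞
  tot : ∑ ω ∈ Om, p ω = 1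
  ch : ∀ ω ∈ Om, HChain ω
  st : ∀ ω ∈ Om, ω.getLast? = some o'

/-- The probability to avoid `S`. -/
noncomputable def Law.av (𝓛 : Law) (S : Set (ℤ × ℤ)) : ℝ≥0∞ := ∑ ω ∈ 𝓛.Om, 𝓛.p ω * ind (∀ z ∈ ω, z ∉ S)

/-! ### words -/

/-- The vertices of a word. -/
def VL (l : List Blk) : Set (ℤ × ℤ) := {z | ∃ l1 c l2 u, l = l1 ++ c :: l2 ∧ u ∈ V (c : Blk).1 ∧ z = ptz l1 + u}

/-- Number of steps of a word, with the connecting steps. -/
def ln (l : List Blk) : ℕ := (l.map fun c => c.1.length + 1).sum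

/-- The word turned by 180 degrees (the path walked backwards). -/
def rvl (l : List Blk) : List Blk := (l.map rvB).reverse

/-- The box of size `D` around `0`. -/
def Bx (D : ℕ) : Set (ℤ × ℤ) := {z | |F0 z| ≤ 3 * D ∧ |z.2| ≤ 3 * D}

/-- The box of size `r` around `y`. -/
def Bl (y : ℤ × ℤ) (r : ℕ) : Set (ℤ × ℤ) := {z | z - y ∈ Bx r}

/-- `E_L(k)`: mass of the words of height `k`, at most `L` steps, times the avoidance functional. -/
noncomputable def ak (𝓛 : Law) (L k : ℕ) : ℝ≥0∞ :=
  ∑' l : List Blk, ind (hj l = k ∧ ln l ≤ L) * (wj l * 𝓛.av (VL l))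

/-- The mass of `(l, ω)`, `l` of height `h`, at most `L` steps, such that `ω` avoids `l` and the box of size `r` around the end of `l`. -/
noncomputable def ph (𝓛 : Law) (L r h : ℕ) : ℝ≥0∞ :=
  ∑' l : List Blk, ind (hj l = h ∧ ln l ≤ L) * (wj l * 𝓛.av (VL l ∪ Bl (ptz l) r))

/-! ### arms -/

/-- `k` is a cut column of the path `η` (latest vertex first): after the first arrival in the column `k` the path stays in the columns `≥ k`. -/
def Cut (k : ℕ) (η : List (ℤ × ℤ)) : Prop :=
  ∃ A B, η = A ++ B ∧ A ≠ [] ∧ (∀ z ∈ A, 3 * (k : ℤ) ≤ F0 z) ∧ ∀ z ∈ B, F0 z < 3 * (k : ℤ)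

/-- Arms from `v` to the column `q` inside `Bx D` without earlier cut column; the last step (from the column `q - 1` to the column `q`) belongs to
the arm. -/
def FA (v : ℤ × ℤ) (D q : ℕ) : Set (List (ℤ × ℤ)) :=
  {η | ∃ y η', η = y :: η' ∧ η.getLast? = some v ∧ η.Nodup ∧ HChain η ∧ F0 y = 3 * q ∧ η' ≠ [] ∧
    (∀ z ∈ η', F0 z < 3 * q ∧ z ∈ Bx D) ∧ ∀ k : ℕ, k < q → F0 v < 3 * k → ¬ Cut k η}

/-- Mass of the arms to the columns `≤ N`. -/
noncomputable def FM (v : ℤ × ℤ) (D N : ℕ) : ℝ≥0∞ :=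
  ∑ q ∈ Finset.range (N + 1), ∑' η : FA v D q, xE ^ (η.1.length - 1)

/-! ### marked blocks -/

/-- Size of a block. -/
noncomputable def szB (c : Blk) : ℕ := max (htw c.1) (wdb c)

/-- Mass of the blocks of size at most `60 R` with one marked vertex. -/
noncomputable def MM (R : ℕ) : ℝ≥0∞ := ∑' c : Blk, ind (szB c ≤ 60 * R) * (xE ^ (c.1.length + 1) * (c.1.length + 1 : ℕ))

/-! ### pairs from one vertex -/

/-- The functional of the far end of a word read from its start. -/
noncomputable def er (𝓛 : Law) (κ : List Blk) : ℝ≥0∞ := 𝓛.av (VL (rvl κ))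

/-- Pairs of words from the same vertex which meet nowhere else, heights `s` and `D`, the functional at the end of the second one. -/
noncomputable def WW (𝓛 : Law) (L s D : ℕ) : ℝ≥0∞ :=
  ∑' l : List Blk, ∑' κ : List Blk, ind (hj l = s ∧ hj κ = D ∧ ln κ ≤ L ∧ QB l κ) * (wj l * wj κ * er 𝓛 κ)

end Pool.Agent.EVN
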