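import Pool.Agent.EVN.Asm
import Pool.Agent.EVN.M.Grow

/-!
Project EVN (MP_8c6f77_pr, note 3192): THE THEOREM. For all `1 ≤ n ≤ n'` the probability that two independent uniform self-avoiding walks of `n` and `n'` steps
on the honeycomb lattice meet only at their common start is at most `C n ^ (-c)`.
-/

namespace Pool.Agent.EVN

theorem goal : Goal := goal_of_grow m_grow

end Pool.Agent.EVN
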